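import Pool.Agent.Lib.PolyTime.Binary

/-!
# The primality test of Agrawal, Kayal and Saxena runs in polynomial time
-/

namespace Pool.Agent.Lib.AKS

open Pool.Agent.PolyTime Function

universe u v

variable {α : Type u} [Rep α]

/-! ### Polynomials modulo `X ^ r - 1` and `n` -/

/-- The residue modulo `n` (modulo `1` if `n = 0`). -/
def md (x n : ℕ) : ℕ := x % (n - 1 + 1)

theorem md_le (x n : ℕ) : md x n ≤ n := by
  have : x % (n - 1 + 1) < n - 1 + 1 := Nat.mod_lt x (Nat.succ_pos (n - 1))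
  unfold md; omega

theorem md_eq {x n : ℕ} (hn : 1 ≤ n) : md x n = x % n := by
  unfold md; congr 1; omega

theorem BT.md {x n : α → ℕ} (hx : BT x) (hn : BT n) : BT (fun a => md (x a) (n a)) :=
  BT.mod hx (BT.add (BT.sub hn (BT.const 1)) (BT.const 1))

/-- A coefficient. -/
def cf (l : List Bin) (i : ℕ) : ℕ := (l[i]?.getD ⟨0⟩).val

theorem BT.cf {l : α → List Bin} {i : α → ℕ} (hl : PT l) (hi : PT i) :
    BT (fun a => cf (l a) (i a)) :=
  PT.val (PT.listGetD hl hi (PT.const (Bin.mk 0)))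

theorem size_cf_le (l : List Bin) (i : ℕ) : (cf l i).size ≤ sz l := by
  unfold cf
  rcases h : l[i]? with _ | b
  · simp
  · have h1 : b ∈ l := List.mem_of_getElem? h
    simp only [Option.getD_some]
    exact (size_le_sz b).trans (sz_mem_le h1)

/-- The list of the residues of the numbers `g 0, ..., g (r - 1)`. -/
def mk (n r : ℕ) (g : ℕ → ℕ) : List Bin := (List.range r).map fun i => ⟨md (g i) n⟩

theorem length_mk (n r : ℕ) (g : ℕ → ℕ) : (mk n r g).length = r := by simp [mk]

theorem cf_mk {n r : ℕ} (g : ℕ → ℕ) {i : ℕ} (hi : i < r) : cf (mk n r g) i = md (g i) n := by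
  simp [cf, mk, hi]

theorem PT.mk {n r : α → ℕ} {g : α → ℕ → ℕ} (hn : BT n) (hr : PT r)
    (hg : BT (fun p : α × ℕ => g p.1 p.2)) : PT (fun a => mk (n a) (r a) (g a)) :=
  PT.map (g := fun a i => (⟨AKS.md (g a i) (n a)⟩ : Bin)) (PT.range hr)
    (BT.md hg (BT.comp hn PT.id.fst))

theorem sz_mk_le (n r : ℕ) (g : ℕ → ℕ) : sz (mk n r g) ≤ r * (4 * n.size + 1 + 1) + 1 := by
  refine (sz_le_of_forall _ (4 * n.size + 1) ?_).trans (by rw [length_mk])
  intro z hz
  obtain ⟨i, _, rfl⟩ := List.mem_map.1 hz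
  refine (sz_bin_le _).trans ?_
  have := Nat.size_le_size (md_le (g i) n)
  simp only; omega

/-- A coefficient of the product, before reduction modulo `n`. -/
def conv (r : ℕ) (a b : List Bin) (k m : ℕ) : ℕ :=
  (Nat.rec (motive := fun _ => Bin) ⟨0⟩
    (fun i s => ⟨s.val + cf a i * cf b ((k + (r - i)) % (r - 1 + 1))⟩) m).val

theorem conv_succ (r : ℕ) (a b : List Bin) (k m : ℕ) :
    conv r a b k (m + 1) = conv r a b k m + cf a m * cf b ((k + (r - m)) % (r - 1 + 1)) := rfl

theorem conv_eq (r : ℕ) (a b : List Bin) (k m : ℕ) :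
    conv r a b k m = ∑ i ∈ Finset.range m, cf a i * cf b ((k + (r - i)) % (r - 1 + 1)) := by
  induction m with
  | zero => rfl
  | succ m ih => rw [conv_succ, ih, Finset.sum_range_succ]

theorem size_conv_le (r : ℕ) (a b : List Bin) (k m : ℕ) :
    (conv r a b k m).size ≤ m + (sz a + sz b) + 1 := by
  rw [Nat.size_le]
  have h : ∀ m, conv r a b k m ≤ m * (2 ^ (sz a) * 2 ^ (sz b)) := by
    intro m
    induction m with
    | zero => exact Nat.zero_le _
    | succ m ih =>
      rw [conv_succ]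
      have h1 : cf a m ≤ 2 ^ sz a :=
        le_of_lt (lt_of_lt_of_le (Nat.lt_size_self _) (Nat.pow_le_pow_right (by norm_num)
          (size_cf_le a m)))
      have h2 : cf b ((k + (r - m)) % (r - 1 + 1)) ≤ 2 ^ sz b :=
        le_of_lt (lt_of_lt_of_le (Nat.lt_size_self _) (Nat.pow_le_pow_right (by norm_num)
          (size_cf_le b _)))
      have h3 := Nat.mul_le_mul h1 h2
      have h4 : (m + 1) * (2 ^ (sz a) * 2 ^ (sz b))
        = m * (2 ^ (sz a) * 2 ^ (sz b)) + 2 ^ (sz a) * 2 ^ (sz b) := by ring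
      omega
  refine (h m).trans_lt ?_
  rw [pow_succ, pow_add, pow_add]
  have h1 : m ≤ 2 ^ m := Nat.lt_two_pow_self.le
  have h2 := Nat.mul_le_mul_right (2 ^ (sz a) * 2 ^ (sz b)) h1
  have h3 : 0 < 2 ^ m * (2 ^ (sz a) * 2 ^ (sz b)) := by positivity
  omega

theorem BT.conv {r k m : α → ℕ} {a b : α → List Bin} (hr : PT r) (ha : PT a) (hb : PT b)
    (hk : PT k) (hm : PT m) : BT (fun x => conv (r x) (a x) (b x) (k x) (m x)) := by
  have hmain : PT (fun x => Nat.rec (motive := fun _ => Bin) ⟨0⟩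
      (fun i s => (⟨s.val + AKS.cf (a x) i *
        AKS.cf (b x) ((k x + (r x - i)) % (r x - 1 + 1))⟩ : Bin)) (m x)) := by
    refine PT.natRec (g := fun x i (s : Bin) => (⟨s.val + AKS.cf (a x) i *
        AKS.cf (b x) ((k x + (r x - i)) % (r x - 1 + 1))⟩ : Bin)) hm (PT.const (Bin.mk 0)) ?_
      (B := fun x => 4 * (sz (m x) + (sz (a x) + sz (b x)) + 1) + 1)
      (((Bdd.const 4).mul ((hm.bdd.add (ha.bdd.add hb.bdd)).add (Bdd.const 1))).add
        (Bdd.const 1)) ?_
    · have h1 : BT (fun p : α × (ℕ × Bin) => AKS.cf (a p.1) p.2.1) :=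
        BT.cf (PT.comp ha PT.id.fst) PT.id.snd.fst
      have h2 : BT (fun p : α × (ℕ × Bin) =>
          AKS.cf (b p.1) ((k p.1 + (r p.1 - p.2.1)) % (r p.1 - 1 + 1))) :=
        BT.cf (PT.comp hb PT.id.fst) (PT.mod (PT.add (PT.comp hk PT.id.fst)
          (PT.sub (PT.comp hr PT.id.fst) PT.id.snd.fst))
          (PT.add (PT.sub (PT.comp hr PT.id.fst) (PT.const 1)) (PT.const 1)))
      have h3 : BT (fun p : α × (ℕ × Bin) => AKS.cf (a p.1) p.2.1 *
          AKS.cf (b p.1) ((k p.1 + (r p.1 - p.2.1)) % (r p.1 - 1 + 1))) := BT.mul h1 h2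
      exact BT.add (PT.val PT.id.snd.snd) h3
    · intro x i hi
      refine (sz_bin_le _).trans ?_
      have h1 := size_conv_le (r x) (a x) (b x) (k x) i
      have h2 : i ≤ sz (m x) := by rw [sz_nat]; omega
      change 4 * (AKS.conv (r x) (a x) (b x) (k x) i).size + 1 ≤ _
      omega
  exact hmain.val

/-- The product modulo `X ^ r - 1` and `n`. -/
def mulL (n r : ℕ) (a b : List Bin) : List Bin := mk n r fun k => conv r a b k r

theorem PT.mulL {n r : α → ℕ} {a b : α → List Bin} (hn : BT n) (hr : PT r) (ha : PT a)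
    (hb : PT b) : PT (fun x => mulL (n x) (r x) (a x) (b x)) :=
  PT.mk (g := fun x k => AKS.conv (r x) (a x) (b x) k (r x)) hn hr
    (BT.conv (PT.comp hr PT.id.fst) (PT.comp ha PT.id.fst) (PT.comp hb PT.id.fst) PT.id.snd
      (PT.comp hr PT.id.fst))

/-- The constant polynomial `1`. -/
def oneL (n r : ℕ) : List Bin := mk n r fun i => if i = 0 then 1 else 0

/-- The polynomial `X + a`. -/
def xaL (n r a : ℕ) : List Bin := mk n r fun i => (if i = 1 then 1 else 0) + if i = 0 then a else 0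

/-- The polynomial `X ^ n + a` modulo `X ^ r - 1`. -/
def xnaL (n r a : ℕ) : List Bin :=
  mk n r fun i => (if i = n % r then 1 else 0) + if i = 0 then a else 0

/-- One step of the power. -/
def powStep (n r : ℕ) (base : List Bin) (b : Bool) (acc : List Bin) : List Bin :=
  if b then mulL n r (mulL n r acc acc) base else mulL n r acc acc

/-- The power, by repeated squaring. -/
def powL (n r : ℕ) (base : List Bin) (bits : List Bool) : List Bin :=
  bits.foldr (powStep n r base) (oneL n r)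

theorem PT.powL {n r : α → ℕ} {base : α → List Bin} {bits : α → List Bool} (hn : BT n)
    (hr : PT r) (hb : PT base) (hbits : PT bits) :
    PT (fun x => powL (n x) (r x) (base x) (bits x)) := by
  refine PT.foldr (g := fun x b acc => powStep (n x) (r x) (base x) b acc) hbits
    (PT.mk (g := fun _ i => if i = 0 then 1 else 0) hn hr
      (BT.iteProp (PT.isZero PT.id.snd) (BT.const 1) (BT.const 0))) ?_
    (B := fun x => sz (r x) * (4 * (n x).size + 1 + 1) + 1)
    ((hr.bdd.mul ((((Bdd.const 4).mul hn.bddSize).add (Bdd.const 1)).add (Bdd.const 1))).add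
      (Bdd.const 1)) ?_
  · have hsq : PT (fun p : α × (Bool × List Bin) => AKS.mulL (n p.1) (r p.1) p.2.2 p.2.2) :=
      PT.mulL (BT.comp hn PT.id.fst) (PT.comp hr PT.id.fst) PT.id.snd.snd PT.id.snd.snd
    exact PT.ite PT.id.snd.fst (PT.mulL (BT.comp hn PT.id.fst) (PT.comp hr PT.id.fst) hsq
      (PT.comp hb PT.id.fst)) hsq
  · intro x l' _
    have key : ∀ l : List Bool, sz (l.foldr (powStep (n x) (r x) (base x)) (oneL (n x) (r x)))
        ≤ r x * (4 * (n x).size + 1 + 1) + 1 := by
      intro l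
      cases l with
      | nil => exact sz_mk_le _ _ _
      | cons b l =>
        rw [List.foldr_cons]
        unfold powStep
        split
        · exact sz_mk_le _ _ _
        · exact sz_mk_le _ _ _
    refine (key l').trans ?_
    have h1 : r x ≤ sz (r x) := by rw [sz_nat]; omega
    have := Nat.mul_le_mul_right (4 * (n x).size + 1 + 1) h1
    omega

/-! ### Roots -/

/-- One bit of the root. -/
def krtStep (n k i : ℕ) (z : Bin) : Bin :=
  if (z.val + 2 ^ (n.size - 1 - i)) ^ k ≤ n then ⟨z.val + 2 ^ (n.size - 1 - i)⟩ else z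

/-- The integer part of the `k`-th root of `n`. -/
def krt (n k : ℕ) : ℕ :=
  (Nat.rec (motive := fun _ => Bin) ⟨0⟩ (fun i z => krtStep n k i z) n.size).val

theorem krt_inv (b k : ℕ) (hk : k ≠ 0) (m : ℕ) (hm : m ≤ (b ^ k).size) :
    let z := (Nat.rec (motive := fun _ => Bin) ⟨0⟩ (fun i z => krtStep (b ^ k) k i z) m).val
    z ≤ b ∧ b < z + 2 ^ ((b ^ k).size - m) := by
  induction m with
  | zero =>
    refine ⟨Nat.zero_le _, ?_⟩
    have h : b < 2 ^ (b ^ k).size :=
      lt_of_le_of_lt (Nat.le_self_pow hk b) (Nat.lt_size_self _)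
    simpa using h
  | succ m ih =>
    obtain ⟨h1, h2⟩ := ih (by omega)
    set z := (Nat.rec (motive := fun _ => Bin) ⟨0⟩ (fun i z => krtStep (b ^ k) k i z) m) with hz
    have e1 : (b ^ k).size - m = ((b ^ k).size - 1 - m) + 1 := by omega
    have e2 : (b ^ k).size - (m + 1) = (b ^ k).size - 1 - m := by omega
    have e3 : (Nat.rec (motive := fun _ => Bin) ⟨0⟩ (fun i z => krtStep (b ^ k) k i z) (m + 1))
      = krtStep (b ^ k) k m z := rfl
    simp only [e3, e2]
    rw [e1, pow_succ] at h2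
    unfold krtStep
    split
    · rename_i h
      have h3 := (Nat.pow_le_pow_iff_left hk).1 h
      refine ⟨h3, ?_⟩
      simp only; omega
    · rename_i h
      refine ⟨h1, ?_⟩
      by_contra hc
      push Not at hc
      exact h (Nat.pow_le_pow_left hc k)

theorem krt_spec (b k : ℕ) (hk : k ≠ 0) : krt (b ^ k) k = b := by
  have h := krt_inv b k hk (b ^ k).size le_rfl
  simp only [Nat.sub_self, pow_zero] at h
  exact Nat.le_antisymm h.1 (Nat.lt_succ_iff.1 h.2)

theorem krt_lt (n k m : ℕ) (hm : m ≤ n.size) :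
    (Nat.rec (motive := fun _ => Bin) ⟨0⟩ (fun i z => krtStep n k i z) m).val
      + 2 ^ (n.size - m) ≤ 2 ^ n.size := by
  induction m with
  | zero => simp
  | succ m ih =>
    have h := ih (by omega)
    have e1 : n.size - m = (n.size - 1 - m) + 1 := by omega
    have e2 : n.size - (m + 1) = n.size - 1 - m := by omega
    change (krtStep n k m _).val + _ ≤ _
    rw [e2]
    rw [e1, pow_succ] at h
    generalize (Nat.rec (motive := fun _ => Bin) ⟨0⟩ (fun i z => krtStep n k i z) m : Bin) = z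
      at h ⊢
    unfold krtStep
    split
    · simp only; omega
    · omega

theorem BT.krt {n k : α → ℕ} (hn : BT n) (hk : PT k) : BT (fun a => krt (n a) (k a)) := by
  have hmain : PT (fun a => Nat.rec (motive := fun _ => Bin) ⟨0⟩
      (fun i z => krtStep (n a) (k a) i z) (n a).size) := by
   refine PT.natRec (g := fun a i (z : Bin) => krtStep (n a) (k a) i z) hn.size
    (PT.const (Bin.mk 0)) ?_ (B := fun a => 4 * (n a).size + 1)
    (((Bdd.const 4).mul hn.bddSize).add (Bdd.const 1)) ?_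
   · have hz : BT (fun p : α × (ℕ × Bin) => p.2.2.val + 2 ^ ((n p.1).size - 1 - p.2.1)) :=
      BT.add (PT.val PT.id.snd.snd) (BT.pow (BT.const 2)
        (PT.sub (PT.sub (BT.size (BT.comp hn PT.id.fst)) (PT.const 1)) PT.id.snd.fst))
     exact PT.iteProp (BT.le (BT.pow hz (PT.comp hk PT.id.fst)) (BT.comp hn PT.id.fst))
      hz PT.id.snd.snd
   · intro a m hm
     refine (sz_bin_le _).trans ?_
     have h1 := krt_lt (n a) (k a) m hm
     have h2 : (Nat.rec (motive := fun _ => Bin) ⟨0⟩ (fun i z => krtStep (n a) (k a) i z) m).val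
        < 2 ^ (n a).size := by
      have : 0 < 2 ^ ((n a).size - m) := by positivity
      omega
     have h3 := Nat.size_le.2 h2
     omega
  exact hmain.val

/-! ### The choice of `r` -/

/-- The powers of `n` modulo `q + 2`. -/
def pm (n q i : ℕ) : ℕ :=
  (Nat.rec (motive := fun _ => Bin) ⟨1⟩ (fun _ y => ⟨(y.val * n) % (q + 2)⟩) i).val

theorem pm_succ (n q i : ℕ) : pm n q (i + 1) = (pm n q i * n) % (q + 2) := rfl

theorem pm_eq (n q i : ℕ) : pm n q i = n ^ i % (q + 2) := by
  induction i with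
  | zero => rw [pow_zero, Nat.mod_eq_of_lt (by omega)]; rfl
  | succ i ih => rw [pm_succ, ih, pow_succ, Nat.mod_mul_mod]

theorem BT.pm {n q i : α → ℕ} (hn : BT n) (hq : PT q) (hi : PT i) :
    BT (fun a => pm (n a) (q a) (i a)) := by
  have hmain : PT (fun a => Nat.rec (motive := fun _ => Bin) ⟨1⟩
      (fun _ y => (⟨(y.val * n a) % (q a + 2)⟩ : Bin)) (i a)) := by
    refine PT.natRec (g := fun a _ (y : Bin) => (⟨(y.val * n a) % (q a + 2)⟩ : Bin)) hi
      (PT.const (Bin.mk 1)) ?_ (B := fun a => 4 * (sz (q a) + 2) + 1)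
      (((Bdd.const 4).mul (hq.bdd.add (Bdd.const 2))).add (Bdd.const 1)) ?_
    · have h1 : BT (fun p : α × (ℕ × Bin) => p.2.2.val * n p.1) :=
        BT.mul (PT.val PT.id.snd.snd) (BT.comp hn PT.id.fst)
      have h2 : BT (fun p : α × (ℕ × Bin) => q p.1 + 2) :=
        PT.toBin (PT.add (PT.comp hq PT.id.fst) (PT.const 2))
      exact BT.mod h1 h2
    · intro a m _
      refine (sz_bin_le _).trans ?_
      change 4 * (AKS.pm (n a) (q a) m).size + 1 ≤ _
      have h1 : AKS.pm (n a) (q a) m ≤ q a + 2 := by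
        rw [pm_eq]; exact (Nat.mod_lt _ (by omega)).le
      have h2 : (AKS.pm (n a) (q a) m).size ≤ q a + 2 :=
        Nat.size_le.2 (Nat.lt_of_le_of_lt h1 Nat.lt_two_pow_self)
      rw [sz_nat]; omega
  exact hmain.val

/-- The conditions on `r = q + 2`: it is prime, it does not divide `n`, and the order of `n`
modulo `r` is at least `S`. -/
def okR (n S q : ℕ) : Bool :=
  ((List.range q).all fun d => decide ((q + 2) % (d + 2) ≠ 0)) &&
    (decide (n % (q + 2) ≠ 0) &&
      ((List.range (S - 1)).all fun i => decide (pm n q (i + 1) ≠ 1)))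

theorem PT.okR {n S q : α → ℕ} (hn : BT n) (hS : PT S) (hq : PT q) :
    PT (fun a => okR (n a) (S a) (q a)) := by
  refine PT.and (PT.all (g := fun a d => decide ((q a + 2) % (d + 2) ≠ 0)) (PT.range hq) ?_)
    (PT.and ?_ (PT.all (g := fun a i => decide (AKS.pm (n a) (q a) (i + 1) ≠ 1))
      (PT.range (PT.sub hS (PT.const 1))) ?_))
  · exact PT.decNot (PT.natEq (PT.mod (PT.add (PT.comp hq PT.id.fst) (PT.const 2))
      (PT.add PT.id.snd (PT.const 2))) (PT.const 0))
  · exact PT.decNot (BT.eq (BT.mod hn (PT.toBin (PT.add hq (PT.const 2)))) (BT.const 0))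
  · exact PT.decNot (BT.eq (BT.pm (BT.comp hn PT.id.fst) (PT.comp hq PT.id.fst)
      (PT.succ PT.id.snd)) (BT.const 1))

/-- The bound for the order. -/
def bS (n : ℕ) : ℕ := (2 * n.size + 1) ^ 2

/-- The bound for `r`. -/
def bR (n : ℕ) : ℕ := 16 * (n.size * (1 + bS n ^ 2) + 1) ^ 2

theorem PT.bS {n : α → ℕ} (hn : BT n) : PT (fun a => bS (n a)) :=
  PT.pow (PT.add (PT.mul (PT.const 2) hn.size) (PT.const 1)) 2

theorem PT.bR {n : α → ℕ} (hn : BT n) : PT (fun a => bR (n a)) :=
  PT.mul (PT.const 16) (PT.pow (PT.add (PT.mul hn.size (PT.add (PT.const 1)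
    (PT.pow (PT.bS hn) 2))) (PT.const 1)) 2)

/-! ### The test -/

/-- The polynomial tests. -/
def polyTest (n r : ℕ) : Bool :=
  (List.range r).all fun a => decide (powL n r (xaL n r a) (Nat.bits n) = xnaL n r a)

theorem PT.polyTest {n r : α → ℕ} (hn : BT n) (hr : PT r) :
    PT (fun a => polyTest (n a) (r a)) := by
  refine PT.all (g := fun x a => decide (AKS.powL (n x) (r x) (xaL (n x) (r x) a)
    (Nat.bits (n x)) = xnaL (n x) (r x) a)) (PT.range hr) ?_
  have hn' : BT (fun p : α × ℕ => n p.1) := BT.comp hn PT.id.fst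
  have hr' : PT (fun p : α × ℕ => r p.1) := PT.comp hr PT.id.fst
  have h0 : BT (fun p : (α × ℕ) × ℕ => if p.2 = 0 then p.1.2 else 0) :=
    BT.iteProp (PT.isZero PT.id.snd) (PT.toBin PT.id.fst.snd) (BT.const 0)
  have h1 : PT (fun p : α × ℕ => xaL (n p.1) (r p.1) p.2) :=
    PT.mk (g := fun (p : α × ℕ) i => (if i = 1 then 1 else 0) + if i = 0 then p.2 else 0) hn' hr'
      (BT.add (BT.iteProp (PT.natEq PT.id.snd (PT.const 1)) (BT.const 1) (BT.const 0)) h0)
  have h2 : PT (fun p : α × ℕ => xnaL (n p.1) (r p.1) p.2) :=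
    PT.mk (g := fun (p : α × ℕ) i =>
      (if i = n p.1 % r p.1 then 1 else 0) + if i = 0 then p.2 else 0) hn' hr'
      (BT.add (BT.iteProp (BT.eq (PT.toBin PT.id.snd) (BT.mod (BT.comp hn PT.id.fst.fst)
        (PT.toBin (PT.comp hr PT.id.fst.fst)))) (BT.const 1) (BT.const 0)) h0)
  exact PT.eq (PT.powL hn' hr' h1 (BT.bits hn')) h2

/-- The primality test of Agrawal, Kayal and Saxena. -/
def aks (n : ℕ) : Bool :=
  if n < 2 then false
  else if ((List.range (bR n)).any fun d => decide (d + 2 < n ∧ n % (d + 2) = 0)) = true then false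
  else if n ≤ bR n + 1 then true
  else if ((List.range n.size).any fun k => decide (krt n (k + 2) ^ (k + 2) = n)) = true then false
  else ((List.range (bR n)).find? (okR n (bS n))).elim false fun q => polyTest n (q + 2)

theorem PT.aks {n : α → ℕ} (hn : BT n) : PT (fun a => aks (n a)) := by
  have hR := PT.bR hn
  refine PT.iteProp (BT.lt hn (BT.const 2)) (PT.const false) ?_
  refine PT.iteProp ((PT.any (g := fun a d => decide (d + 2 < n a ∧ n a % (d + 2) = 0))
    (PT.range hR) ?_).congr fun _ => Bool.decide_eq_true.symm) (PT.const false) ?_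
  · have hd : BT (fun p : α × ℕ => p.2 + 2) := PT.toBin (PT.add PT.id.snd (PT.const 2))
    have hn' : BT (fun p : α × ℕ => n p.1) := BT.comp hn PT.id.fst
    exact PT.decAnd (BT.lt hd hn') (BT.eq (BT.mod hn' hd) (BT.const 0))
  refine PT.iteProp (BT.le hn (PT.toBin (PT.succ hR))) (PT.const true) ?_
  refine PT.iteProp ((PT.any (g := fun a k => decide (AKS.krt (n a) (k + 2) ^ (k + 2) = n a))
    (PT.range hn.size) ?_).congr fun _ => Bool.decide_eq_true.symm) (PT.const false) ?_
  · have hk : PT (fun p : α × ℕ => p.2 + 2) := PT.add PT.id.snd (PT.const 2)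
    have hn' : BT (fun p : α × ℕ => n p.1) := BT.comp hn PT.id.fst
    exact BT.eq (BT.pow (BT.krt hn' hk) hk) hn'
  · refine (PT.optionCases
      (l := fun a => (List.range (AKS.bR (n a))).find? (AKS.okR (n a) (AKS.bS (n a))))
      (f := fun _ => false) (g := fun a q => AKS.polyTest (n a) (q + 2)) ?_ (PT.const false)
      ?_).congr fun a => ?_
    · exact PT.find? (g := fun a q => AKS.okR (n a) (AKS.bS (n a)) q) (PT.range hR)
        (PT.okR (BT.comp hn PT.id.fst) (PT.bS (BT.comp hn PT.id.fst)) PT.id.snd)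
    · exact PT.polyTest (BT.comp hn PT.id.fst) (PT.add PT.id.snd (PT.const 2))
    · cases (List.range (AKS.bR (n a))).find? (AKS.okR (n a) (AKS.bS (n a))) <;> rfl

end Pool.Agent.Lib.AKS
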