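import Mathlib

/-!
# The theorem of Agrawal, Kayal and Saxena

If `(X + a) ^ n = X ^ n + a` holds modulo `X ^ r - 1` and a prime factor `p` of `n`, for all
`a < r`, and the order of `n` modulo the prime `r < p` is large, then `n` is a power of `p`.
-/

namespace Pool.Agent.Lib.AKS

open Finset Polynomial

section core

variable {n p r : ℕ} {K : Type*} [Field K]

/-- The property `f(ζ) ^ m = f(ζ ^ m)` for all `r`-th roots of unity. -/
def Intro (r m : ℕ) (f : K[X]) : Prop := ∀ ζ : K, ζ ^ r = 1 → (f.eval ζ) ^ m = f.eval (ζ ^ m)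

theorem Intro.mul {m m' : ℕ} {f : K[X]} (h : Intro r m f) (h' : Intro r m' f) :
    Intro r (m * m') f := by
  intro ζ hζ
  have h1 : (ζ ^ m) ^ r = 1 := by rw [← pow_mul, mul_comm, pow_mul, hζ, one_pow]
  rw [pow_mul, h ζ hζ, h' _ h1, pow_mul]

theorem Intro.one {f : K[X]} : Intro r 1 f := fun ζ _ => by simp

theorem Intro.pow {m : ℕ} {f : K[X]} (h : Intro r m f) (i : ℕ) : Intro r (m ^ i) f := by
  induction i with
  | zero => simpa using Intro.one
  | succ i ih => rw [pow_succ]; exact ih.mul h

/-- The product of the `X + a`, `a ∈ S`. -/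
noncomputable def fS (K : Type*) [Field K] (S : Finset ℕ) : K[X] := ∏ a ∈ S, (X + C (a : K))

theorem eval_fS (S : Finset ℕ) (ζ : K) : (fS K S).eval ζ = ∏ a ∈ S, (ζ + (a : K)) := by
  simp [fS, eval_prod]

theorem Intro.prod {m : ℕ} {S : Finset ℕ} (h : ∀ a ∈ S, ∀ ζ : K, ζ ^ r = 1 →
    (ζ + (a : K)) ^ m = ζ ^ m + a) : Intro r m (fS K S) := by
  intro ζ hζ
  rw [eval_fS, eval_fS, ← Finset.prod_pow]
  exact Finset.prod_congr rfl fun a ha => h a ha ζ hζ

theorem natDegree_fS (S : Finset ℕ) : (fS K S).natDegree = S.card := by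
  rw [fS, natDegree_prod_of_monic _ _ fun a _ => monic_X_add_C _,
    Finset.sum_congr rfl fun a _ => natDegree_X_add_C _]
  simp

theorem fS_injOn [CharP K p] {T : Finset ℕ} (hT : ∀ a ∈ T, a < p) :
    Set.InjOn (fS K) {S | S ⊆ T} := by
  have key : ∀ S ⊆ T, ∀ a ∈ T, (fS K S).eval (-(a : K)) = 0 ↔ a ∈ S := by
    intro S hS a ha
    rw [eval_fS, Finset.prod_eq_zero_iff]
    constructor
    · rintro ⟨b, hb, hab⟩
      have h1 : (b : K) = a := by linear_combination hab
      have h2 : b ≡ a [MOD p] := (CharP.natCast_eq_natCast K p).1 h1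
      have h3 := Nat.ModEq.eq_of_lt_of_lt h2 (hT b (hS hb)) (hT a ha)
      rwa [← h3]
    · intro h
      exact ⟨a, h, by ring⟩
  intro S hS S' hS' h
  ext a
  constructor
  · intro ha
    have := (key S hS a (hS ha)).2 ha
    rw [h] at this
    exact (key S' hS' a (hS ha)).1 this
  · intro ha
    have := (key S' hS' a (hS' ha)).2 ha
    rw [← h] at this
    exact (key S hS a (hS' ha)).1 this

end core

/-- The residues of the products `n ^ i * p ^ j` modulo `r`. -/
noncomputable def res (n p r : ℕ) [NeZero r] : Finset (ZMod r) :=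
  open Classical in
  Finset.univ.filter fun g => ∃ i j : ℕ, g = (n : ZMod r) ^ i * (p : ZMod r) ^ j

/-- The theorem of Agrawal, Kayal and Saxena. -/
theorem aks_core {n p r : ℕ} [hpf : Fact p.Prime] (hn : 2 ≤ n) (hpn : p ∣ n) (hr : r.Prime)
    (hpr : r < p)
    (hrn : ¬ r ∣ n)
    (hord : ∀ i, 0 < i → i < (2 * n.size + 1) ^ 2 → ¬ n ^ i ≡ 1 [MOD r])
    (htest : ∀ a < r, ∀ ζ : AlgebraicClosure (ZMod p), ζ ^ r = 1 →
      (ζ + (a : AlgebraicClosure (ZMod p))) ^ n = ζ ^ n + a) :
    ∃ k, n = p ^ k := by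
  classical
  have hp : p.Prime := hpf.out
  have : Fact r.Prime := ⟨hr⟩
  have : NeZero r := ⟨hr.ne_zero⟩
  set K := AlgebraicClosure (ZMod p) with hK
  have : CharP K p := by
    have h : CharP (ZMod p) p := inferInstance
    exact charP_of_injective_algebraMap (algebraMap (ZMod p) K).injective p
  have : ExpChar K p := ExpChar.prime hp
  have : NeZero ((r : ℕ) : ZMod p) := ⟨by
    intro h
    rw [ZMod.natCast_eq_zero_iff] at h
    have := Nat.le_of_dvd hr.pos h
    omega⟩
  obtain ⟨η, hη⟩ := HasEnoughRootsOfUnity.exists_primitiveRoot K r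
  -- introspection
  have hIn : ∀ S ⊆ range r, Intro r n (fS K S) := fun S hS =>
    Intro.prod fun a ha ζ hζ => htest a (Finset.mem_range.1 (hS ha)) ζ hζ
  have hIp : ∀ S : Finset ℕ, Intro r p (fS K S) := fun S =>
    Intro.prod fun a _ ζ _ => by
      rw [add_pow_expChar ζ (a : K) p]
      congr 1
      have h := map_natCast (frobenius K p) a
      rw [frobenius_def] at h
      exact h
  have hI : ∀ S ⊆ range r, ∀ i j : ℕ, Intro r (n ^ i * p ^ j) (fS K S) := fun S hS i j =>
    ((hIn S hS).pow i).mul ((hIp S).pow j)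
  -- powers of η
  have hηpow : ∀ m : ℕ, η ^ m = η ^ ((m : ZMod r)).val := by
    intro m
    rw [ZMod.val_natCast]
    conv_rhs => rw [hη.eq_orderOf, pow_mod_orderOf]
  have hηinj : Function.Injective fun g : ZMod r => η ^ g.val := by
    intro g g' h
    have := hη.pow_inj (ZMod.val_lt g) (ZMod.val_lt g') h
    exact ZMod.val_injective r this
  -- the set of residues
  set G := res n p r with hG
  have hmemG : ∀ i j : ℕ, ((n ^ i * p ^ j : ℕ) : ZMod r) ∈ G := fun i j => by
    rw [hG, res, Finset.mem_filter]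
    exact ⟨Finset.mem_univ _, i, j, by push_cast; rfl⟩
  set τ := G.card with hτ
  have hτr : τ ≤ r := by
    have := Finset.card_le_univ G
    rwa [ZMod.card] at this
  set s := 2 * n.size + 1 with hs
  have hrn' : Nat.Coprime n r := ((Nat.Prime.coprime_iff_not_dvd hr).2 hrn).symm
  have hτs : s ^ 2 ≤ τ := by
    have hinj : Set.InjOn (fun i : ℕ => ((n ^ i * p ^ 0 : ℕ) : ZMod r)) (Finset.range (s ^ 2)) := by
      have key : ∀ i j : ℕ, i < j → j < s ^ 2 →
          ((n ^ i * p ^ 0 : ℕ) : ZMod r) ≠ ((n ^ j * p ^ 0 : ℕ) : ZMod r) := by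
        intro i j hij hj h
        rw [pow_zero, mul_one, mul_one, ZMod.natCast_eq_natCast_iff] at h
        have e : n ^ j = n ^ i * n ^ (j - i) := by rw [← pow_add]; congr 1; omega
        rw [e] at h
        have h2 : n ^ i * 1 ≡ n ^ i * n ^ (j - i) [MOD r] := by rw [mul_one]; exact h
        have h3 := Nat.ModEq.cancel_left_of_coprime
          (by rw [← Nat.coprime_iff_gcd_eq_one]; exact (hrn'.pow_left i).symm) h2
        exact hord (j - i) (by omega) (by omega) h3.symm
      intro i hi j hj h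
      rw [Finset.coe_range, Set.mem_Iio] at hi hj
      rcases lt_trichotomy i j with h1 | h1 | h1
      · exact absurd h (key i j h1 hj)
      · exact h1
      · exact absurd h.symm (key j i h1 hi)
    have := Finset.card_le_card_of_injOn (s := Finset.range (s ^ 2)) (t := G)
      (fun i : ℕ => ((n ^ i * p ^ 0 : ℕ) : ZMod r)) (fun i _ => hmemG i 0) hinj
    rwa [Finset.card_range] at this
  -- distinct values
  have hval : ∀ S ⊆ range r, ∀ S' ⊆ range r, S.card < τ → S'.card < τ →
      (fS K S).eval η = (fS K S').eval η → fS K S = fS K S' := by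
    intro S hS S' hS' hc hc' h
    by_contra hne
    have hne' : fS K S - fS K S' ≠ 0 := sub_ne_zero.2 hne
    have hdeg : (fS K S - fS K S').natDegree < τ := by
      refine (natDegree_sub_le _ _).trans_lt ?_
      rw [natDegree_fS, natDegree_fS]
      exact max_lt hc hc'
    have hroots : (G.image fun g => η ^ g.val) ⊆ (fS K S - fS K S').roots.toFinset := by
      intro z hz
      obtain ⟨g, hg, rfl⟩ := Finset.mem_image.1 hz
      rw [hG, res, Finset.mem_filter] at hg
      obtain ⟨_, i, j, hij⟩ := hg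
      have e : η ^ g.val = η ^ (n ^ i * p ^ j) := by
        rw [hηpow (n ^ i * p ^ j), hij]; push_cast; rfl
      rw [Multiset.mem_toFinset, mem_roots hne', IsRoot.def, eval_sub, sub_eq_zero, e,
        ← hI S hS i j η hη.pow_eq_one, ← hI S' hS' i j η hη.pow_eq_one, h]
    have h1 := Finset.card_le_card hroots
    rw [Finset.card_image_of_injective _ hηinj] at h1
    have h2 := (Multiset.toFinset_card_le (fS K S - fS K S').roots).trans (card_roots' _)
    omega
  -- pigeonhole
  set s' := Nat.sqrt τ with hs'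
  have hs's : s ≤ s' := by
    rw [hs', Nat.le_sqrt']; exact hτs
  have hpig : ∃ x ∈ (Finset.range (s' + 1) ×ˢ Finset.range (s' + 1)),
      ∃ y ∈ (Finset.range (s' + 1) ×ˢ Finset.range (s' + 1)), x ≠ y ∧
      ((n ^ x.1 * p ^ x.2 : ℕ) : ZMod r) = ((n ^ y.1 * p ^ y.2 : ℕ) : ZMod r) := by
    refine Finset.exists_ne_map_eq_of_card_lt_of_maps_to (t := G) ?_ (fun x _ => hmemG x.1 x.2)
    rw [Finset.card_product, Finset.card_range]
    exact Nat.lt_succ_sqrt τ
  obtain ⟨x, hx, y, hy, hxy, hres⟩ := hpig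
  rw [Finset.mem_product, Finset.mem_range, Finset.mem_range] at hx hy
  -- the exponents agree
  have heq : n ^ x.1 * p ^ x.2 = n ^ y.1 * p ^ y.2 := by
    by_contra hne
    set m1 := n ^ x.1 * p ^ x.2 with hm1
    set m2 := n ^ y.1 * p ^ y.2 with hm2
    have hpn' : p ≤ n := Nat.le_of_dvd (by omega) hpn
    have hbound : ∀ i j : ℕ, i < s' + 1 → j < s' + 1 → n ^ i * p ^ j ≤ n ^ (2 * s') := by
      intro i j hi hj
      calc n ^ i * p ^ j ≤ n ^ s' * n ^ s' :=
            Nat.mul_le_mul (Nat.pow_le_pow_right (by omega) (by omega))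
              ((Nat.pow_le_pow_left hpn' j).trans (Nat.pow_le_pow_right (by omega) (by omega)))
        _ = n ^ (2 * s') := by rw [← pow_add]; congr 1; ring
    have hb1 := hbound x.1 x.2 hx.1 hx.2
    have hb2 := hbound y.1 y.2 hy.1 hy.2
    have hQ : (X ^ m1 - X ^ m2 : K[X]) ≠ 0 := by
      intro h
      rw [sub_eq_zero] at h
      have := congrArg natDegree h
      rw [natDegree_X_pow, natDegree_X_pow] at this
      exact hne this
    have hQdeg : (X ^ m1 - X ^ m2 : K[X]).natDegree ≤ n ^ (2 * s') := by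
      refine (natDegree_sub_le _ _).trans ?_
      rw [natDegree_X_pow, natDegree_X_pow]
      exact max_le hb1 hb2
    -- the values of the products
    set V := ((Finset.range τ).powerset.erase (Finset.range τ)).image
      fun S => (fS K S).eval η with hV
    have hVcard : V.card = 2 ^ τ - 1 := by
      rw [hV, Finset.card_image_of_injOn, Finset.card_erase_of_mem (by simp),
        Finset.card_powerset, Finset.card_range]
      intro S hS S' hS' h
      rw [Finset.mem_coe, Finset.mem_erase, Finset.mem_powerset] at hS hS'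
      have c1 : S.card < τ := by
        have := Finset.card_lt_card (Finset.ssubset_iff_subset_ne.2 ⟨hS.2, hS.1⟩)
        rwa [Finset.card_range] at this
      have c2 : S'.card < τ := by
        have := Finset.card_lt_card (Finset.ssubset_iff_subset_ne.2 ⟨hS'.2, hS'.1⟩)
        rwa [Finset.card_range] at this
      have hsub : ∀ S : Finset ℕ, S ⊆ range τ → S ⊆ range r := fun S hS =>
        hS.trans (Finset.range_subset_range.2 hτr)
      have h1 := hval S (hsub S hS.2) S' (hsub S' hS'.2) c1 c2 h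
      exact fS_injOn (K := K) (p := p) (T := range τ)
        (fun a ha => by have := Finset.mem_range.1 ha; omega) hS.2 hS'.2 h1
    have hVsub : V ⊆ (X ^ m1 - X ^ m2 : K[X]).roots.toFinset := by
      intro z hz
      obtain ⟨S, hS, rfl⟩ := Finset.mem_image.1 hz
      rw [Finset.mem_erase, Finset.mem_powerset] at hS
      have hSr : S ⊆ range r := hS.2.trans (Finset.range_subset_range.2 hτr)
      rw [Multiset.mem_toFinset, mem_roots hQ, IsRoot.def]
      simp only [eval_sub, eval_pow, eval_X]
      rw [sub_eq_zero, hI S hSr x.1 x.2 η hη.pow_eq_one, hI S hSr y.1 y.2 η hη.pow_eq_one,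
        hηpow (n ^ x.1 * p ^ x.2), hηpow (n ^ y.1 * p ^ y.2), hres]
    have h1 := Finset.card_le_card hVsub
    have h2 := (Multiset.toFinset_card_le (X ^ m1 - X ^ m2 : K[X]).roots).trans (card_roots' _)
    rw [hVcard] at h1
    have h3 : 2 ^ τ - 1 ≤ n ^ (2 * s') := by omega
    have h4 : n ^ (2 * s') < 2 ^ (2 * n.size * s') := by
      have e : 2 ^ (2 * n.size * s') = (2 ^ n.size) ^ (2 * s') := by rw [← pow_mul]; congr 1; ring
      rw [e]
      exact Nat.pow_lt_pow_left (Nat.lt_size_self n) (by omega)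
    have h5 : 2 * n.size * s' < τ := by
      have e1 : s' * s' ≤ τ := Nat.sqrt_le τ
      have e2 : (2 * n.size + 1) * s' ≤ s' * s' := Nat.mul_le_mul_right _ hs's
      have e3 : (2 * n.size + 1) * s' = 2 * n.size * s' + s' := by ring
      omega
    have h6 : 2 ^ (2 * n.size * s') * 2 ≤ 2 ^ τ := by
      rw [← pow_succ]; exact Nat.pow_le_pow_right (by norm_num) h5
    have h7 : 0 < 2 ^ (2 * n.size * s') := by positivity
    omega
  -- conclusion
  have hfin : ∀ i j i' j' : ℕ, i' < i → n ^ i * p ^ j = n ^ i' * p ^ j' → ∃ k, n = p ^ k := by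
    intro i j i' j' hi h
    have e : n ^ i = n ^ i' * n ^ (i - i') := by rw [← pow_add]; congr 1; omega
    rw [e, mul_assoc] at h
    have h1 := Nat.eq_of_mul_eq_mul_left (Nat.pow_pos (by omega)) h
    have h2 : n ∣ p ^ j' := by
      rw [← h1]
      exact Dvd.dvd.mul_right (dvd_pow_self n (by omega)) _
    obtain ⟨k, _, hk⟩ := (Nat.dvd_prime_pow hp).1 h2
    exact ⟨k, hk⟩
  rcases lt_trichotomy x.1 y.1 with h | h | h
  · exact hfin y.1 y.2 x.1 x.2 h heq.symm
  · exfalso
    rw [h] at heq
    have h1 := Nat.eq_of_mul_eq_mul_left (Nat.pow_pos (by omega)) heq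
    have h2 := Nat.pow_right_injective hp.two_le h1
    exact hxy (Prod.ext h h2)
  · exact hfin x.1 x.2 y.1 y.2 h heq

end Pool.Agent.Lib.AKS
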