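import Mathlib
import Pool.Agent.Lib.AKS.Alg
import Pool.Agent.Lib.AKS.Core

/-!
# The primality test of Agrawal, Kayal and Saxena is correct
-/

namespace Pool.Agent.Lib.AKS

open Pool.Agent.PolyTime Finset

section ev

variable {Q : Type*} [CommRing Q]

/-- The value of a polynomial, given by its list of coefficients. -/
def ev (r : ℕ) (l : List Bin) (x : Q) : Q := ∑ i ∈ range r, (cf l i : Q) * x ^ i

theorem cast_md {n y : ℕ} (hn : 1 ≤ n) (h0 : (n : Q) = 0) : ((md y n : ℕ) : Q) = y := by
  rw [md_eq hn]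
  conv_rhs => rw [← Nat.mod_add_div y n]
  push_cast
  rw [h0]; ring

theorem ev_mk {n r : ℕ} (hn : 1 ≤ n) (h0 : (n : Q) = 0) (g : ℕ → ℕ) (x : Q) :
    ev r (mk n r g) x = ∑ i ∈ range r, (g i : Q) * x ^ i := by
  refine Finset.sum_congr rfl fun i hi => ?_
  rw [cf_mk g (Finset.mem_range.1 hi), cast_md hn h0]

theorem pow_mod' {r : ℕ} {x : Q} (hx : x ^ r = 1) (m : ℕ) : x ^ (m % r) = x ^ m := by
  conv_rhs => rw [← Nat.mod_add_div m r, pow_add, pow_mul, hx, one_pow, mul_one]

theorem ev_mul {n r : ℕ} (hn : 1 ≤ n) (hr : 1 ≤ r) (h0 : (n : Q) = 0) {x : Q} (hx : x ^ r = 1)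
    (a b : List Bin) : ev r (mulL n r a b) x = ev r a x * ev r b x := by
  have e0 : r - 1 + 1 = r := by omega
  rw [mulL, ev_mk hn h0]
  have e1 : ∀ k ∈ range r, ((conv r a b k r : ℕ) : Q) * x ^ k
      = ∑ i ∈ range r, (cf a i : Q) * ((cf b ((k + (r - i)) % r) : Q) * x ^ k) := by
    intro k _
    rw [conv_eq, e0]
    push_cast
    rw [Finset.sum_mul]
    exact Finset.sum_congr rfl fun i _ => by ring
  rw [Finset.sum_congr rfl e1, Finset.sum_comm, ev, Finset.sum_mul]
  refine Finset.sum_congr rfl fun i hi => ?_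
  rw [← Finset.mul_sum, mul_assoc]
  congr 1
  rw [ev, Finset.mul_sum]
  have hi' := Finset.mem_range.1 hi
  refine Finset.sum_nbij' (fun k => (k + (r - i)) % r) (fun j => (i + j) % r) ?_ ?_ ?_ ?_ ?_
  · intro k _; exact Finset.mem_range.2 (Nat.mod_lt _ (by omega))
  · intro j _; exact Finset.mem_range.2 (Nat.mod_lt _ (by omega))
  · intro k hk
    have hk' := Finset.mem_range.1 hk
    rw [Nat.add_mod_mod]
    have : i + (k + (r - i)) = k + r := by omega
    rw [this, Nat.add_mod_right, Nat.mod_eq_of_lt hk']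
  · intro j hj
    have hj' := Finset.mem_range.1 hj
    rw [Nat.mod_add_mod]
    have : i + j + (r - i) = j + r := by omega
    rw [this, Nat.add_mod_right, Nat.mod_eq_of_lt hj']
  · intro k hk
    have hk' := Finset.mem_range.1 hk
    have e2 : x ^ k = x ^ i * x ^ ((k + (r - i)) % r) := by
      rw [← pow_add, ← pow_mod' hx (i + (k + (r - i)) % r), Nat.add_mod_mod]
      have : i + (k + (r - i)) = k + r := by omega
      rw [this, Nat.add_mod_right, Nat.mod_eq_of_lt hk']
    rw [e2]; ring

theorem ev_one {n r : ℕ} (hn : 1 ≤ n) (hr : 1 ≤ r) (h0 : (n : Q) = 0) (x : Q) :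
    ev r (oneL n r) x = 1 := by
  rw [oneL, ev_mk hn h0, Finset.sum_eq_single 0]
  · simp
  · intro i _ hi; simp [hi]
  · intro h; exact absurd (Finset.mem_range.2 (by omega)) h

theorem ev_const {r : ℕ} (hr : 1 ≤ r) (a : ℕ) (x : Q) :
    ∑ i ∈ range r, (((if i = 0 then a else 0 : ℕ)) : Q) * x ^ i = a := by
  rw [Finset.sum_eq_single 0]
  · simp
  · intro i _ hi; simp [hi]
  · intro h; exact absurd (Finset.mem_range.2 (by omega)) h

theorem ev_xa {n r a : ℕ} (hn : 1 ≤ n) (hr : 2 ≤ r) (h0 : (n : Q) = 0) (x : Q) :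
    ev r (xaL n r a) x = x + a := by
  rw [xaL, ev_mk hn h0]
  push_cast
  simp only [add_mul, Finset.sum_add_distrib]
  congr 1
  · rw [Finset.sum_eq_single 1]
    · simp
    · intro i _ hi; simp [hi]
    · intro h; exact absurd (Finset.mem_range.2 (by omega)) h
  · have := ev_const (Q := Q) (r := r) (by omega) a x
    push_cast at this
    exact this

theorem ev_xna {n r a : ℕ} (hn : 1 ≤ n) (hr : 1 ≤ r) (h0 : (n : Q) = 0) {x : Q}
    (hx : x ^ r = 1) : ev r (xnaL n r a) x = x ^ n + a := by
  rw [xnaL, ev_mk hn h0]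
  push_cast
  simp only [add_mul, Finset.sum_add_distrib]
  congr 1
  · rw [Finset.sum_eq_single (n % r)]
    · simp [pow_mod' hx]
    · intro i _ hi; simp [hi]
    · intro h; exact absurd (Finset.mem_range.2 (Nat.mod_lt _ (by omega))) h
  · have := ev_const (Q := Q) (r := r) (by omega) a x
    push_cast at this
    exact this

theorem ev_pow {n r : ℕ} (hn : 1 ≤ n) (hr : 1 ≤ r) (h0 : (n : Q) = 0) {x : Q} (hx : x ^ r = 1)
    (base : List Bin) (bits : List Bool) :
    ev r (powL n r base bits) x = (ev r base x) ^ valL bits := by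
  induction bits with
  | nil =>
    rw [valL_nil, pow_zero]
    exact ev_one hn hr h0 x
  | cons b l ih =>
    have e : powL n r base (b :: l) = powStep n r base b (powL n r base l) := rfl
    rw [e, powStep, valL_cons]
    cases b with
    | false =>
      simp only [Bool.false_eq_true, if_false, ev_mul hn hr h0 hx, ih, Bool.toNat_false]
      ring
    | true =>
      simp only [if_true, ev_mul hn hr h0 hx, ih, Bool.toNat_true]
      ring

end ev

theorem polyTest_sound {n r : ℕ} (hn : 1 ≤ n) (hr : 2 ≤ r) (h : polyTest n r = true)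
    {Q : Type*} [CommRing Q] (h0 : (n : Q) = 0) {x : Q} (hx : x ^ r = 1) {a : ℕ} (ha : a < r) :
    (x + a) ^ n = x ^ n + a := by
  rw [polyTest, List.all_eq_true] at h
  have h1 := h a (List.mem_range.2 ha)
  rw [decide_eq_true_eq] at h1
  have h2 : ev r (powL n r (xaL n r a) (Nat.bits n)) x = ev r (xnaL n r a) x := by rw [h1]
  rw [ev_pow hn (by omega) h0 hx, valL_bits, ev_xa hn hr h0, ev_xna hn (by omega) h0 hx] at h2
  exact h2

open Polynomial in
theorem polyTest_complete {n r : ℕ} (hn : n.Prime) (hr : 2 ≤ r) : polyTest n r = true := by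
  have : Fact n.Prime := ⟨hn⟩
  have hn1 : 1 ≤ n := hn.one_lt.le
  rw [polyTest, List.all_eq_true]
  intro a _
  rw [decide_eq_true_eq]
  set f : (ZMod n)[X] := X ^ r - 1 with hf
  have hmonic : f.Monic := monic_X_pow_sub_C 1 (by omega)
  have hdeg : f.natDegree = r := natDegree_X_pow_sub_C
  set x : AdjoinRoot f := AdjoinRoot.root f with hx
  have hxr : x ^ r = 1 := by
    have h := AdjoinRoot.eval₂_root f
    rw [hf, eval₂_sub, eval₂_pow, eval₂_X, eval₂_one, sub_eq_zero] at h
    exact h
  have h0 : ((n : ℕ) : AdjoinRoot f) = 0 := by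
    rw [← map_natCast (AdjoinRoot.of f) n, ZMod.natCast_self, map_zero]
  have hpow : (x + a) ^ n = x ^ n + a := by
    obtain ⟨c, hc⟩ := exists_add_pow_prime_eq hn x (a : AdjoinRoot f)
    have h1 : (n : AdjoinRoot f) * x * a * c = 0 := by rw [h0]; ring
    rw [hc, h1, add_zero]
    congr 1
    rw [← map_natCast (AdjoinRoot.of f) a, ← map_pow, ZMod.pow_card]
  have hev : ev r (powL n r (xaL n r a) (Nat.bits n)) x = ev r (xnaL n r a) x := by
    rw [ev_pow hn1 (by omega) h0 hxr, valL_bits, ev_xa hn1 hr h0, ev_xna hn1 (by omega) h0 hxr,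
      hpow]
  -- the powers of the root are independent
  have hinj : ∀ l l' : List Bin, ev r l x = ev r l' x → ∀ i < r,
      (cf l i : ZMod n) = cf l' i := by
    intro l l' h i hi
    have key : ∀ l : List Bin, ev r l x
        = AdjoinRoot.mk f (∑ i ∈ range r, C (cf l i : ZMod n) * X ^ i) := by
      intro l
      rw [map_sum, ev]
      refine Finset.sum_congr rfl fun i _ => ?_
      rw [map_mul, map_pow, AdjoinRoot.mk_C, AdjoinRoot.mk_X, map_natCast]
    rw [key, key, AdjoinRoot.mk_eq_mk] at h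
    have hcoef : ∀ l : List Bin, (∑ i ∈ range r, C (cf l i : ZMod n) * X ^ i).coeff i
        = (cf l i : ZMod n) := by
      intro l
      rw [finsetSum_coeff, Finset.sum_eq_single i]
      · simp
      · intro j _ hj; rw [coeff_C_mul_X_pow, if_neg (Ne.symm hj)]
      · intro h; exact absurd (Finset.mem_range.2 hi) h
    have hlt : ∀ l : List Bin, (∑ i ∈ range r, C (cf l i : ZMod n) * X ^ i).degree < f.degree := by
      intro l
      rw [degree_eq_natDegree hmonic.ne_zero, hdeg]
      refine (degree_sum_le _ _).trans_lt ?_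
      rw [Finset.sup_lt_iff (WithBot.bot_lt_coe _)]
      intro j hj
      refine (degree_C_mul_X_pow_le _ _).trans_lt ?_
      exact_mod_cast Finset.mem_range.1 hj
    have hzero : (∑ i ∈ range r, C (cf l i : ZMod n) * X ^ i)
        - (∑ i ∈ range r, C (cf l' i : ZMod n) * X ^ i) = 0 := by
      by_contra hne
      refine hmonic.not_dvd_of_degree_lt hne ?_ h
      exact (degree_sub_le _ _).trans_lt (max_lt (hlt l) (hlt l'))
    rw [sub_eq_zero] at hzero
    have := congrArg (fun P => P.coeff i) hzero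
    simp only [hcoef] at this
    exact this
  -- both lists are normalised
  have hnorm : ∀ g g' : ℕ → ℕ, (∀ i < r, (cf (mk n r g) i : ZMod n) = cf (mk n r g') i) →
      mk n r g = mk n r g' := by
    intro g g' h
    refine List.map_congr_left fun i hi => ?_
    have hi' := List.mem_range.1 hi
    have h1 := h i hi'
    rw [cf_mk g hi', cf_mk g' hi', md_eq hn1, md_eq hn1, ZMod.natCast_mod, ZMod.natCast_mod,
      ZMod.natCast_eq_natCast_iff'] at h1
    rw [Bin.mk.injEq, md_eq hn1, md_eq hn1]
    exact h1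
  have hform : ∃ g, powL n r (xaL n r a) (Nat.bits n) = mk n r g := by
    cases h : Nat.bits n with
    | nil => exact ⟨_, rfl⟩
    | cons b l =>
      have e : powL n r (xaL n r a) (b :: l)
        = powStep n r (xaL n r a) b (powL n r (xaL n r a) l) := rfl
      rw [e, powStep]
      split
      · exact ⟨_, rfl⟩
      · exact ⟨_, rfl⟩
  obtain ⟨g, hg⟩ := hform
  have h1 := hinj _ _ hev
  rw [hg] at h1 ⊢
  exact hnorm _ _ h1

/-! ### The choice of `r` -/

theorem okR_iff {n S q : ℕ} : okR n S q = true ↔ (q + 2).Prime ∧ ¬ q + 2 ∣ n ∧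
    ∀ i, 0 < i → i < S → ¬ n ^ i ≡ 1 [MOD (q + 2)] := by
  rw [okR, Bool.and_eq_true, Bool.and_eq_true, List.all_eq_true, List.all_eq_true]
  have h1 : (∀ d ∈ List.range q, decide ((q + 2) % (d + 2) ≠ 0) = true) ↔ (q + 2).Prime := by
    constructor
    · intro h
      rw [Nat.prime_def_lt]
      refine ⟨by omega, fun m hm hmd => ?_⟩
      by_contra hne
      have hm0 : m ≠ 0 := by
        rintro rfl
        rw [zero_dvd_iff] at hmd; omega
      have h2 := h (m - 2) (List.mem_range.2 (by omega))
      rw [decide_eq_true_eq] at h2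
      have e : m - 2 + 2 = m := by omega
      rw [e] at h2
      exact h2 (Nat.mod_eq_zero_of_dvd hmd)
    · intro h d hd
      rw [decide_eq_true_eq]
      intro h0
      have h2 := (Nat.dvd_prime h).1 (Nat.dvd_of_mod_eq_zero h0)
      have := List.mem_range.1 hd
      omega
  have h2 : decide (n % (q + 2) ≠ 0) = true ↔ ¬ q + 2 ∣ n := by
    rw [decide_eq_true_eq, Nat.dvd_iff_mod_eq_zero]
  have h3 : (∀ i ∈ List.range (S - 1), decide (pm n q (i + 1) ≠ 1) = true) ↔
      ∀ i, 0 < i → i < S → ¬ n ^ i ≡ 1 [MOD (q + 2)] := by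
    constructor
    · intro h i hi hiS
      have h4 := h (i - 1) (List.mem_range.2 (by omega))
      have e : i - 1 + 1 = i := by omega
      rw [decide_eq_true_eq, e, pm_eq] at h4
      intro h5
      apply h4
      rw [Nat.ModEq, Nat.mod_eq_of_lt (a := 1) (by omega)] at h5
      exact h5
    · intro h i hi
      rw [decide_eq_true_eq, pm_eq]
      intro h5
      refine h (i + 1) (by omega) (by have := List.mem_range.1 hi; omega) ?_
      rw [Nat.ModEq, Nat.mod_eq_of_lt (a := 1) (by omega)]
      exact h5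
  rw [h1, h2, h3]

theorem exists_okR (n : ℕ) (hn : 2 ≤ n) : ∃ q < bR n, okR n (bS n) q = true := by
  by_contra hcon
  push Not at hcon
  set S := bS n with hS
  set L := n.size with hL
  set x := L * (1 + S ^ 2) + 1 with hx
  have hbR : bR n = 16 * x ^ 2 := rfl
  set m := bR n + 1 with hm
  -- the product
  set P := n * ∏ i ∈ range S, (n ^ (i + 1) - 1) with hP
  have hP0 : P ≠ 0 := by
    refine Nat.mul_ne_zero (by omega) (Finset.prod_ne_zero_iff.2 fun i _ => ?_)
    have : 1 < n ^ (i + 1) := Nat.one_lt_pow (by omega) (by omega)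
    omega
  have hPlt : P < 2 ^ x := by
    have h1 : ∏ i ∈ range S, (n ^ (i + 1) - 1) ≤ 2 ^ (L * S ^ 2) := by
      calc ∏ i ∈ range S, (n ^ (i + 1) - 1) ≤ ∏ _i ∈ range S, 2 ^ (L * S) := by
            refine Finset.prod_le_prod' fun i hi => ?_
            have hi' := Finset.mem_range.1 hi
            have e1 : n ^ (i + 1) ≤ (2 ^ L) ^ (i + 1) :=
              Nat.pow_le_pow_left (Nat.lt_size_self n).le _
            have e2 : (2 ^ L) ^ (i + 1) ≤ 2 ^ (L * S) := by
              rw [← pow_mul]
              exact Nat.pow_le_pow_right (by norm_num) (Nat.mul_le_mul_left _ (by omega))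
            omega
        _ = 2 ^ (L * S ^ 2) := by
            rw [Finset.prod_const, Finset.card_range, ← pow_mul]; congr 1; ring
    have h2 : n < 2 ^ L := Nat.lt_size_self n
    have h3 : P < 2 ^ L * 2 ^ (L * S ^ 2) :=
      Nat.mul_lt_mul_of_lt_of_le h2 h1 (by positivity)
    refine h3.trans_le ?_
    rw [← pow_add]
    refine Nat.pow_le_pow_right (by norm_num) ?_
    rw [hx, Nat.mul_add]; omega
  -- all small primes divide the product
  have hdvd : ∀ p ∈ Nat.primesLE m, p ∣ P := by
    intro p hp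
    obtain ⟨hpm, hpp⟩ := Nat.mem_primesLE.1 hp
    have hp2 := hpp.two_le
    have h1 := hcon (p - 2) (by omega)
    rw [Ne, okR_iff] at h1
    have e : p - 2 + 2 = p := by omega
    rw [e] at h1
    by_cases hpn : p ∣ n
    · exact Dvd.dvd.mul_right hpn _
    · have h2 : ∃ i, 0 < i ∧ i < S ∧ n ^ i ≡ 1 [MOD p] := by
        by_contra h3
        push Not at h3
        exact h1 ⟨hpp, hpn, h3⟩
      obtain ⟨i, hi0, hiS, hi⟩ := h2
      have h3 : p ∣ n ^ i - 1 := (Nat.modEq_iff_dvd' (Nat.one_le_pow _ _ (by omega))).1 hi.symm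
      refine Dvd.dvd.mul_left (h3.trans ?_) _
      have e2 : i - 1 + 1 = i := by omega
      have h4 := Finset.dvd_prod_of_mem (fun i => n ^ (i + 1) - 1)
        (Finset.mem_range.2 (by omega : i - 1 < S))
      simp only [e2] at h4
      exact h4
  have hcard : (Nat.primesLE m).card ≤ x := by
    have h1 : ∏ p ∈ Nat.primesLE m, p ∣ P :=
      Finset.prod_primes_dvd P (fun p hp => (Nat.mem_primesLE.1 hp).2.prime) hdvd
    have h2 : 2 ^ (Nat.primesLE m).card ≤ ∏ p ∈ Nat.primesLE m, p := by
      rw [← Finset.prod_const]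
      exact Finset.prod_le_prod' fun p hp => (Nat.mem_primesLE.1 hp).2.two_le
    have h3 := Nat.le_of_dvd (Nat.pos_of_ne_zero hP0) h1
    exact (Nat.pow_lt_pow_iff_right (by norm_num)).1 ((h2.trans h3).trans_lt hPlt) |>.le
  -- the least common multiple
  have hlcm : Nat.lcmUpto m ≤ m ^ (Nat.primesLE m).card := by
    rw [Nat.lcmUpto_eq_prod_pow_log, ← Finset.prod_const]
    refine Finset.prod_le_prod' fun p _ => ?_
    exact Nat.pow_log_le_self p (by omega)
  have h1 := Chebyshev.two_pow_le_mul_lcmUpto m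
  have h2 : 2 ^ m ≤ (m + 1) ^ (x + 1) := by
    calc 2 ^ m ≤ (m + 1) * Nat.lcmUpto m := h1
      _ ≤ (m + 1) * (m + 1) ^ x := by
          refine Nat.mul_le_mul_left _ (hlcm.trans ?_)
          calc m ^ (Nat.primesLE m).card ≤ (m + 1) ^ (Nat.primesLE m).card :=
                Nat.pow_le_pow_left (by omega) _
            _ ≤ (m + 1) ^ x := Nat.pow_le_pow_right (by omega) hcard
      _ = (m + 1) ^ (x + 1) := by rw [pow_succ]; ring
  have hx1 : 1 ≤ x := by omega
  have h3 : m + 1 ≤ 2 ^ (5 + 2 * x) := by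
    have e1 : x < 2 ^ x := Nat.lt_two_pow_self
    have e2 : x ^ 2 ≤ (2 ^ x) ^ 2 := Nat.pow_le_pow_left e1.le 2
    have e3 : (2 ^ x) ^ 2 = 2 ^ (2 * x) := by rw [← pow_mul]; congr 1; ring
    rw [pow_add, hm, hbR]
    rw [e3] at e2
    have e4 : 1 ≤ x ^ 2 := Nat.one_le_pow _ _ hx1
    norm_num
    omega
  have h4 : 2 ^ m ≤ 2 ^ ((5 + 2 * x) * (x + 1)) := by
    rw [pow_mul]
    exact h2.trans (Nat.pow_le_pow_left h3 _)
  have h5 := (Nat.pow_le_pow_iff_right (by norm_num)).1 h4
  rw [hm, hbR] at h5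
  nlinarith

/-! ### The main theorem -/

/-- The primality test of Agrawal, Kayal and Saxena is correct. -/
theorem aks_iff (n : ℕ) : aks n = true ↔ n.Prime := by
  unfold aks
  by_cases h2 : n < 2
  · rw [if_pos h2]
    constructor
    · intro h; exact absurd h (by simp)
    · intro h; have := h.two_le; omega
  rw [if_neg h2]
  by_cases h3 : ((List.range (bR n)).any fun d => decide (d + 2 < n ∧ n % (d + 2) = 0)) = true
  · rw [if_pos h3]
    constructor
    · intro h; exact absurd h (by simp)
    · intro h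
      obtain ⟨d, _, hd⟩ := List.any_eq_true.1 h3
      rw [decide_eq_true_eq] at hd
      have := (Nat.dvd_prime h).1 (Nat.dvd_of_mod_eq_zero hd.2)
      omega
  rw [if_neg h3]
  have h3' : ∀ d < bR n, d + 2 < n → ¬ d + 2 ∣ n := by
    intro d hd hdn hdvd
    apply h3
    rw [List.any_eq_true]
    exact ⟨d, List.mem_range.2 hd, by
      rw [decide_eq_true_eq]; exact ⟨hdn, Nat.mod_eq_zero_of_dvd hdvd⟩⟩
  by_cases h4 : n ≤ bR n + 1
  · rw [if_pos h4]
    refine ⟨fun _ => ?_, fun _ => rfl⟩
    rw [Nat.prime_def_lt]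
    refine ⟨by omega, fun m hm hmd => ?_⟩
    by_contra hne
    have hm0 : m ≠ 0 := by
      rintro rfl
      rw [zero_dvd_iff] at hmd; omega
    have e : m - 2 + 2 = m := by omega
    refine h3' (m - 2) (by omega) (by omega) ?_
    rw [e]; exact hmd
  rw [if_neg h4]
  have hlarge : ∀ p : ℕ, p.Prime → p ∣ n → bR n + 1 < p := by
    intro p hp hpn
    by_contra hc
    push Not at hc
    have hp2 := hp.two_le
    have e : p - 2 + 2 = p := by omega
    refine h3' (p - 2) (by omega) (by omega) ?_
    rw [e]; exact hpn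
  by_cases h5 : ((List.range n.size).any fun k => decide (krt n (k + 2) ^ (k + 2) = n)) = true
  · rw [if_pos h5]
    constructor
    · intro h; exact absurd h (by simp)
    · intro h
      exfalso
      obtain ⟨k, _, hk⟩ := List.any_eq_true.1 h5
      rw [decide_eq_true_eq] at hk
      rw [← hk] at h
      exact Nat.Prime.not_prime_pow (by omega) h
  rw [if_neg h5]
  obtain ⟨q, hq, hok⟩ := exists_okR n (by omega)
  have hfind : ∃ q', (List.range (bR n)).find? (okR n (bS n)) = some q' := by
    rw [← Option.isSome_iff_exists, List.find?_isSome]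
    exact ⟨q, List.mem_range.2 hq, hok⟩
  obtain ⟨q', hq'⟩ := hfind
  rw [hq']
  have hok' := List.find?_some hq'
  have hmem := List.mem_range.1 (List.mem_of_find?_eq_some hq')
  rw [okR_iff] at hok'
  obtain ⟨r1, r2, r3⟩ := hok'
  simp only [Option.elim_some]
  constructor
  · intro ht
    obtain ⟨p, hp, hpn⟩ := Nat.exists_prime_and_dvd (n := n) (by omega)
    have : Fact p.Prime := ⟨hp⟩
    have hpl := hlarge p hp hpn
    have h0 : ((n : ℕ) : AlgebraicClosure (ZMod p)) = 0 := by
      rw [← map_natCast (algebraMap (ZMod p) (AlgebraicClosure (ZMod p))) n,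
        (ZMod.natCast_eq_zero_iff n p).2 hpn, map_zero]
    obtain ⟨k, hk⟩ := aks_core (n := n) (p := p) (r := q' + 2) (by omega) hpn r1 (by omega) r2
      r3 (fun a ha ζ hζ => polyTest_sound (by omega) (by omega) ht h0 hζ ha)
    rcases Nat.lt_or_ge k 2 with hk2 | hk2
    · interval_cases k
      · simp at hk; omega
      · rw [hk, pow_one]; exact hp
    · exfalso
      apply h5
      rw [List.any_eq_true]
      refine ⟨k - 2, List.mem_range.2 ?_, ?_⟩
      · have h6 : k < n.size := by
          rw [Nat.lt_size, hk]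
          exact Nat.pow_le_pow_left hp.two_le k
        omega
      · have e : k - 2 + 2 = k := by omega
        rw [decide_eq_true_eq, e]
        conv_lhs => rw [hk]
        rw [krt_spec p k (by omega), ← hk]
  · intro h
    exact polyTest_complete h (by omega)

end Pool.Agent.Lib.AKS
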